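import Pool.Agent.H10.Ury3

namespace Pool.Agent.Results.MP_c74e51_al.Answer
open Pool.Agent.H10.Ury

theorem result :
    (∀ (U : Type) [MetricSpace U], Urysohn ratDist U → ¬ Bergman (Pol U)) ∧
    (∀ (U : Type) [MetricSpace U], Urysohn ratDist1 U → Bergman (Pol U)) ∧ Bergman PolQ :=
  ⟨fun _ _ => not_bergman, fun _ _ => bergman_sphere, bergman_rat⟩

end Pool.Agent.Results.MP_c74e51_al.Answer
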