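import Pool.Agent.H10.Ury3

namespace Pool.Agent.Results.MP_c74e51_al.RatYes
open Pool.Agent.H10.Ury

theorem result : Bergman PolQ := bergman_rat

end Pool.Agent.Results.MP_c74e51_al.RatYes
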